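import Pool.Agent.Results.MP_2c585b_nt.GoldInverseSum
import Pool.Agent.Zk86.Q2.Indep
import Pool.Agent.Zk86.Q2.Link2

/-!
# Q2: the sum of `(-1)^{Tr(R_k(v))}` is the Kloosterman sum

For a field `F` with `2 ^ n` elements, `n` odd, and every `k` coprime to `n`, the sum of
`(-1)^{Tr(R_k(v))}` over `v ≠ 0`, where
`R_k(v) = (v^{2^k} + 1) v^{2^k} / (v^{2^k} + v)^{2^k + 1}`, equals the Kloosterman sum
`∑_{x ≠ 0} (-1)^{Tr(x + 1/x)}`.

Proof. Put `χ(x) = (-1)^{Tr x}`, `σ(x) = x^{2^k}` and `ν(t) = #{y : y^3 + y = t} - 1`.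

1. (`Link2.lean`) `∑_v χ(R_k(v)) = ∑_x χ(1/x) ν(x σ(x))`: expanding over additive characters, the
   left side is `1 + ∑_ρ χ(ρ) #{g ≠ 0 : ρ σ(g)^2 + σ(ρ) g^2 = 1 + g σ(g)}`, and for `ρ ≠ 0` the
   number of `g` is `1 + #{y : y^3 + y = t}` with `t = 1/√(ρ σ(ρ))`: the equation says that one of
   the Dickson polynomials of degree `2^k + 1` and `2^k - 1` takes the value `t`.
2. (`Indep.lean`) `∑_x χ(1/x) ν(x σ(x))` does not depend on `σ`, because it is the trace of `M ∘ σ`
   for the explicit `(q+2) × (q+2)` matrix `M` extending `χ(1/x) ν(x y)`; `M` commutes with its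
   adjoint and with the matrices `K_z` (`z ≠ 0, 1`) extending
   `-χ(1/y) ∑_{v² + v = 1 + 1/x + 1/y + 1/z} ν(x y z v²)`, these commute with each other, are
   Hermitian up to a scalar, and the family is `σ`-stable and has a cyclic vector fixed by `σ`.
   The commutation relations come from the product formula
   `ν(A) ν(B) = ∑_{C² + ABC + A² + B² = 0} ν(C) - [A = B ≠ 0] χ(1/A)` and a four point identity.
3. For `k = 1` the substitution `y = 1/v + 1` gives the Kloosterman sum.
-/

set_option autoImplicit false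

namespace Pool.Agent.Results.MP_2c585b_nt.KloostermanIdentity

open Pool.Agent.R478.BES Pool.Agent.Zk86.Q2 Pool.Agent.Results.MP_2c585b_nt.GoldInverseSum

variable {F : Type*} [Field F] [Fintype F] [Algebra (ZMod 2) F]

theorem chi_sq [CharP F 2] (x : F) : chi F (x ^ 2) = chi F x := by
  have h := chi_equiv (frobeniusEquiv F 2) x
  rw [frobeniusEquiv_def] at h
  exact h

theorem chi_one_odd (n : ℕ) (hF : Fintype.card F = 2 ^ n) (hn : Odd n) : chi F 1 = -1 := by
  have h1 : Module.finrank (ZMod 2) F = n := by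
    have h2 := Module.card_eq_pow_finrank (K := ZMod 2) (V := F)
    rw [hF, ZMod.card] at h2
    exact (Nat.pow_right_injective (le_refl 2) h2).symm
  have h3 : Algebra.trace (ZMod 2) F 1 = 1 := by
    have h4 := Algebra.trace_algebraMap (R := ZMod 2) (S := F) (1 : ZMod 2)
    rw [map_one, h1] at h4
    rw [h4]
    obtain ⟨m, rfl⟩ := hn
    rw [nsmul_eq_mul, mul_one]
    push_cast
    have : (2 : ZMod 2) = 0 := rfl
    rw [this]; ring
  rw [chi_apply, h3]
  norm_num [ZMod.val_one]

omit [Algebra (ZMod 2) F] in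
/-- the case `k = 1`. -/
theorem case_one [DecidableEq F] [CharP F 2] (e : AddChar F ℂ) :
    ∑ v : Fˣ, e ((((v : F) ^ 2 ^ 1 + 1) * (v : F) ^ 2 ^ 1) /
      ((v : F) ^ 2 ^ 1 + v) ^ (2 ^ 1 + 1)) = ∑ x : Fˣ, e ((x : F) + (x : F)⁻¹) := by
  have h1 := sum_add_zero (fun v : F => e (((v ^ 2 ^ 1 + 1) * v ^ 2 ^ 1) /
      (v ^ 2 ^ 1 + v) ^ (2 ^ 1 + 1)))
  have h2 := sum_add_zero (fun x : F => e (x + x⁻¹))
  have h3 : ∑ v : F, e (((v ^ 2 ^ 1 + 1) * v ^ 2 ^ 1) / (v ^ 2 ^ 1 + v) ^ (2 ^ 1 + 1)) =
      ∑ x : F, e (x + x⁻¹) := by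
    have hb : Function.Bijective (fun v : F => v⁻¹ + 1) := by
      apply Finite.injective_iff_bijective.1
      intro x y h
      exact inv_injective (add_right_cancel h)
    refine Fintype.sum_bijective (fun v : F => v⁻¹ + 1) hb _ _ fun v => ?_
    congr 1
    by_cases h0 : v = 0
    · subst h0
      simp [CharTwo.add_self_eq_zero]
    · by_cases h1 : v = 1
      · subst h1
        simp [CharTwo.add_self_eq_zero]
      · have h4 : v + 1 ≠ 0 := fun h => h1 (CharTwo.add_eq_zero.1 h)
        have h5 : v ^ 2 ^ 1 + v = v * (v + 1) := by ring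
        have h6 : v ^ 2 ^ 1 + 1 = (v + 1) ^ 2 := by grind
        have h7 : v⁻¹ + 1 = (v + 1) / v := by
          field_simp
          ring
        rw [h5, h6, h7]
        field_simp
        grind
  rw [h1, h2] at h3
  have h4 : e (((0 ^ 2 ^ 1 + 1) * 0 ^ 2 ^ 1) / ((0 : F) ^ 2 ^ 1 + 0) ^ (2 ^ 1 + 1)) =
      e ((0 : F) + (0 : F)⁻¹) := by simp
  rw [h4] at h3
  exact add_left_cancel h3

/-- **Q2 holds**: let `F` be a field with `2 ^ n` elements, `n` odd, and let `k` be coprime to `n`.
Then `∑_{x ≠ 0} (-1)^{Tr(x + x⁻¹)} = ∑_{v ≠ 0} (-1)^{Tr(R_k(v))}` with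
`R_k(v) = (v^{2^k} + 1) v^{2^k} / (v^{2^k} + v)^{2^k + 1}` (and `R_k(1) = 0`). -/
theorem result (F : Type) [Field F] [Fintype F] [DecidableEq F] [Algebra (ZMod 2) F] (n k : ℕ)
    (hF : Fintype.card F = 2 ^ n) (hn : Odd n) (hk : Nat.Coprime k n) :
    ∑ x : Fˣ, (-1 : ℤ) ^ (Algebra.trace (ZMod 2) F ((x : F) + (x : F)⁻¹)).val =
      ∑ v : Fˣ, (-1 : ℤ) ^ (Algebra.trace (ZMod 2) F
        ((((v : F) ^ 2 ^ k + 1) * (v : F) ^ 2 ^ k) / ((v : F) ^ 2 ^ k + v) ^ (2 ^ k + 1))).val := by
  have : CharP F 2 := charP_of_injective_algebraMap (algebraMap (ZMod 2) F).injective 2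
  have h3 : Fintype.card F % 3 = 2 := by rw [hF]; exact (two_pow_mod n).1 hn
  have hpow : ∀ (j : ℕ) (x : Fˣ), ((uu (iterateFrobeniusEquiv F 2 j) x : Fˣ)) = x ^ 2 ^ j := by
    intro j x
    ext
    rw [coe_uu, iterateFrobeniusEquiv_def]
    simp
  have hFx : ∀ x : Fˣ, x ^ 2 ^ n = x := by
    intro x
    ext
    rw [Units.val_pow_eq_pow_val, ← hF, FiniteField.pow_card]
  have hFm : ∀ (m : ℕ) (x : Fˣ), x ^ 2 ^ (n * m) = x := by
    intro m
    induction m with
    | zero => intro x; simp
    | succ m ih =>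
      intro x
      rw [Nat.mul_succ, pow_add, pow_mul, ih, hFx]
  have hpi : ∀ f : Fˣ → ℂ, f ∘ uu (iterateFrobeniusEquiv F 2 k) = f ↔
      f ∘ uu (iterateFrobeniusEquiv F 2 1) = f := by
    intro f
    constructor
    · intro h
      by_cases hn1 : 1 < n
      · have h1 : ∀ (m : ℕ) (x : Fˣ), f (x ^ 2 ^ (k * m)) = f x := by
          intro m
          induction m with
          | zero => intro x; simp
          | succ m ih =>
            intro x
            have h2 := congrFun h (x ^ 2 ^ (k * m))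
            simp only [Function.comp_apply, hpow] at h2
            rw [Nat.mul_succ, pow_add, pow_mul, h2, ih]
        obtain ⟨m, -, hm⟩ := Nat.exists_mul_mod_eq_one_of_coprime hk hn1
        have h3 : k * m = n * (k * m / n) + 1 := by
          have := Nat.div_add_mod (k * m) n
          omega
        funext x
        simp only [Function.comp_apply, hpow]
        have h4 := h1 m x
        rw [h3, pow_add, pow_mul, hFm] at h4
        exact h4
      · have hn2 : n = 1 := by
          obtain ⟨m, hm⟩ := hn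
          omega
        funext x
        simp only [Function.comp_apply, hpow]
        rw [hn2] at hFx
        rw [hFx]
    · intro h
      have h1 : ∀ (m : ℕ) (x : Fˣ), f (x ^ 2 ^ m) = f x := by
        intro m
        induction m with
        | zero => intro x; simp
        | succ m ih =>
          intro x
          have h2 := congrFun h (x ^ 2 ^ m)
          simp only [Function.comp_apply, hpow, pow_one] at h2
          rw [pow_succ, pow_mul, h2, ih]
      funext x
      simp only [Function.comp_apply, hpow]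
      exact h1 k x
  have key := indep (chi F) chi_ne_one chi_sq (chi_one_odd n hF hn) h3
    (iterateFrobeniusEquiv F 2 k) (iterateFrobeniusEquiv F 2 1) (chi_equiv _) (chi_equiv _) hpi
  simp only [iterateFrobeniusEquiv_def] at key
  rw [← link (chi F) chi_ne_one chi_sq n k hF hn hk,
    ← link (chi F) chi_ne_one chi_sq n 1 hF hn (Nat.coprime_one_left n), case_one] at key
  simp only [chi_apply] at key
  exact_mod_cast key.symm

end Pool.Agent.Results.MP_2c585b_nt.KloostermanIdentity
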